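import Pool.Agent.Lib.MP_5aed36_gt.Final

open MeasureTheory Pool.Agent.LevelSetFlow

namespace Pool.Agent.Results.MP_5aed36_gt.GenericLevel

/-- For almost every regular level of `C²` initial data the level set flow never fattens and its
perimeter is finite and continuous at every time. -/
theorem result (n : ℕ) (u : EuclideanSpace ℝ (Fin (n + 1)) × ℝ → ℝ) (R c : ℝ)
    (hu : IsWeakSolution u)
    (hout : ∀ x t, 0 ≤ t → R ≤ ‖x‖ → u (x, t) = c)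
    (hg : ContDiff ℝ 2 fun x => u (x, 0)) :
    ∀ᵐ a : ℝ, c < a → (∀ x, u (x, 0) = a → fderiv ℝ (fun y => u (y, 0)) x ≠ 0) →
      (∀ t, 0 ≤ t → volume {x | u (x, t) = a} = 0) ∧
      (∀ t, 0 ≤ t → perimeter {x | a < u (x, t)} < ⊤) ∧
      ContinuousOn (fun t => perimeter {x | a < u (x, t)}) (Set.Ici 0) := by
  have h : ∀ q : ℚ × ℚ, ∀ᵐ a : ℝ, (c < q.1 ∧ (q.1 : ℝ) < q.2 ∧ ∀ x, (q.1 : ℝ) ≤ u (x, 0) →
      u (x, 0) ≤ q.2 → fderiv ℝ (fun y => u (y, 0)) x ≠ 0) → (q.1 : ℝ) < a → a < q.2 →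
      (∀ t, 0 ≤ t → volume {x | u (x, t) = a} = 0) ∧
      (∀ t, 0 ≤ t → perimeter {x | a < u (x, t)} < ⊤) ∧
      ContinuousOn (fun t => perimeter {x | a < u (x, t)}) (Set.Ici 0) := by
    intro q
    by_cases hq : c < q.1 ∧ (q.1 : ℝ) < q.2 ∧ ∀ x, (q.1 : ℝ) ≤ u (x, 0) →
        u (x, 0) ≤ q.2 → fderiv ℝ (fun y => u (y, 0)) x ≠ 0
    · filter_upwards [Pool.Agent.MCF5.window_ae n.succ_pos hu hout hg hq.1 hq.2.1 hq.2.2]
        with a ha _
      exact ha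
    · exact Filter.Eventually.of_forall fun a h => absurd h hq
  filter_upwards [ae_all_iff.2 h] with a ha hc hreg
  obtain ⟨a₁, a₂, h1, h2, h3, h4⟩ := Pool.Agent.MCF5.exists_window hg
    (fun x hx => hout x 0 le_rfl hx) hc hreg
  exact ha (a₁, a₂) ⟨h1, h2.trans h3, h4⟩ h2 h3

end Pool.Agent.Results.MP_5aed36_gt.GenericLevel
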