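import Pool.Agent.FS.H39Joint.Joint

open MeasureTheory Pool.Agent.LevelSetFlow
open scoped NNReal

namespace Pool.Agent.Results.MP_5aed36_gt.JointCurves

/-- For every `ε > 0` there are countably many `ε`-Lipschitz functions such that the perimeter of
`{u (·, t) > b}` is continuous, jointly in the level `b` and the time `t ≥ 0`, at every pair
(regular level `a`, time `T`) off the graphs `a = f k T`. -/
theorem result (n : ℕ) (u : EuclideanSpace ℝ (Fin (n + 1)) × ℝ → ℝ) (R c : ℝ)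
    (hu : IsWeakSolution u)
    (hout : ∀ x t, 0 ≤ t → R ≤ ‖x‖ → u (x, t) = c)
    (hg : ContDiff ℝ 2 fun x => u (x, 0)) (ε : ℝ≥0) (hε : 0 < ε) :
    ∃ f : ℕ → ℝ → ℝ, (∀ k, LipschitzWith ε (f k)) ∧
      ∀ a T : ℝ, c < a → (∀ x, u (x, 0) = a → fderiv ℝ (fun y => u (y, 0)) x ≠ 0) → 0 ≤ T →
        (∀ k, f k T ≠ a) →
        ContinuousWithinAt (fun z : ℝ × ℝ => perimeter {x | z.1 < u (x, z.2)})
          {z | 0 ≤ z.2} (a, T) := by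
  have h : Pool.Agent.FS39.Cov ε (⋃ q : ℚ × ℚ, {y | (c < q.1 ∧ (q.1 : ℝ) < q.2 ∧
      ∀ x, (q.1 : ℝ) ≤ u (x, 0) → u (x, 0) ≤ q.2 → fderiv ℝ (fun y => u (y, 0)) x ≠ 0) ∧
      (q.1 : ℝ) < y.1 ∧ y.1 < q.2 ∧ 0 ≤ y.2 ∧ ¬ ContinuousWithinAt
        (fun z : ℝ × ℝ => perimeter {x | z.1 < u (x, z.2)}) {z | 0 ≤ z.2} y}) := by
    refine Pool.Agent.FS39.cov_iUnion fun q => ?_
    by_cases hq : c < q.1 ∧ (q.1 : ℝ) < q.2 ∧ ∀ x, (q.1 : ℝ) ≤ u (x, 0) →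
        u (x, 0) ≤ q.2 → fderiv ℝ (fun y => u (y, 0)) x ≠ 0
    · exact (Pool.Agent.FS39.window_joint n.succ_pos hu hout hg hq.1 hq.2.1 hq.2.2 hε).mono
        fun z hz => hz.2
    · exact Pool.Agent.FS39.cov_graph fun p hp => absurd hp.1 hq
  obtain ⟨f, h1, h2⟩ := h
  refine ⟨f, h1, fun a T hc hreg hT hne => ?_⟩
  by_contra hd
  obtain ⟨a₁, a₂, k1, k2, k3, k4⟩ := Pool.Agent.MCF5.exists_window hg
    (fun x hx => hout x 0 le_rfl hx) hc hreg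
  obtain ⟨k, hk⟩ :=
    h2 (a, T) (Set.mem_iUnion.2 ⟨(a₁, a₂), ⟨k1, k2.trans k3, k4⟩, k2, k3, hT, hd⟩)
  exact hne k hk

end Pool.Agent.Results.MP_5aed36_gt.JointCurves
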