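import Pool.Agent.Lib.MP_5aed36_gt.H39Final

open MeasureTheory Filter Topology Pool.Agent.LevelSetFlow
open scoped NNReal

namespace Pool.Agent.Results.MP_5aed36_gt.MassDropBound

/-- For one prescribed regular level `a`: the oscillation at time `T` of the perimeter of
`{u > a}` is at most a constant times the lower limit, as `s ↑ T`, of the integral of
`(u - a)^(-1/2)` over the strip `a < u < a + κ (T - s)`. -/
theorem result (n : ℕ) (u : EuclideanSpace ℝ (Fin (n + 1)) × ℝ → ℝ) (R c a : ℝ)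
    (hu : IsWeakSolution u)
    (hout : ∀ x t, 0 ≤ t → R ≤ ‖x‖ → u (x, t) = c)
    (hg : ContDiff ℝ 2 fun x => u (x, 0))
    (hc : c < a) (hreg : ∀ x, u (x, 0) = a → fderiv ℝ (fun y => u (y, 0)) x ≠ 0) :
    ∃ C : ℝ≥0, ∀ T κ : ℝ, 0 ≤ T → 0 < κ →
      limsup (fun t => perimeter {x | a < u (x, t)}) (𝓝[Set.Ici 0] T) < ⊤ ∧
      limsup (fun t => perimeter {x | a < u (x, t)}) (𝓝[Set.Ici 0] T) ≤
        liminf (fun t => perimeter {x | a < u (x, t)}) (𝓝[Set.Ici 0] T) +
          C * liminf (fun s => ∫⁻ x in {x | 0 ≤ s ∧ a < u (x, s) ∧ u (x, s) < a + κ * (T - s)},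
            ENNReal.ofReal (1 / √(u (x, s) - a))) (𝓝[<] T) := by
  obtain ⟨a₁, a₂, h1, h2, h3, h4⟩ := Pool.Agent.MCF5.exists_window hg
    (fun x hx => hout x 0 le_rfl hx) hc hreg
  exact Pool.Agent.MCF5.window_one n.succ_pos hu hout hg h1 h2 h3 h4

end Pool.Agent.Results.MP_5aed36_gt.MassDropBound
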