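import Pool.Agent.FS.SumDrop69.Main

open MeasureTheory Filter Topology Pool.Agent.LevelSetFlow Pool.Agent.MCF5
open scoped NNReal

namespace Pool.Agent.Results.MP_5aed36_gt.SummableDrops

/-- In a window of regular levels the perimeters are bounded by one constant, and at every positive
time the jumps of the perimeter, summed over all levels of the window, are bounded by it too. -/
theorem result (n : ℕ) (u : EuclideanSpace ℝ (Fin (n + 1)) × ℝ → ℝ) (R c a₁ a₂ : ℝ)
    (hu : IsWeakSolution u)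
    (hout : ∀ x t, 0 ≤ t → R ≤ ‖x‖ → u (x, t) = c)
    (hg : ContDiff ℝ 2 fun x => u (x, 0)) (hc : c < a₁) (ha : a₁ < a₂)
    (hreg : ∀ x, a₁ ≤ u (x, 0) → u (x, 0) ≤ a₂ → fderiv ℝ (fun y => u (y, 0)) x ≠ 0) :
    ∃ C : ℝ≥0, ∀ T : ℝ, 0 < T →
      (∀ a ∈ Set.Ioo a₁ a₂, limsup (fun t => perimeter {x | a < u (x, t)}) (𝓝 T) ≤ C) ∧
      ∑' a : Set.Ioo a₁ a₂, (limsup (fun t => perimeter {x | a.1 < u (x, t)}) (𝓝 T) -
        liminf (fun t => perimeter {x | a.1 < u (x, t)}) (𝓝 T)) ≤ C := by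
  classical
  obtain ⟨M, hM⟩ := nice_extT hu hout
  obtain ⟨L, B, C₀, c', hB, hC, hc', hF⟩ := exists_flow (g := fun x => u (x, 0)) n.succ_pos hM
    (sub_extT hu.sub) (sub_neg_extT hu.super) (fun z hz => extT_of_nonpos u z.1 hz) hg hc ha hreg
  obtain ⟨k1, k2⟩ := Pool.Agent.FS.SumDrop69.sd_flow hF hc' hB hC
  refine ⟨B.toNNReal, fun T hT => ?_⟩
  have e : ∀ a ∈ Set.Ioo a₁ a₂, ∀ᶠ t in 𝓝 T, perimeter {x | a < u (x, t)} =
      perim {x | a < cl a₁ a₂ (extT u (x, t))} := by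
    intro a h
    filter_upwards [lt_mem_nhds hT] with t ht
    rw [perimeter_eq]
    congr 1
    ext x
    simp only [Set.mem_ofPred_eq, lt_cl_iff h.1 h.2, extT_of_nonneg u x ht.le]
  refine ⟨fun a h => ?_, ?_⟩
  · rw [limsup_congr (e a h)]
    refine limsup_le_of_le (h := ?_)
    filter_upwards [lt_mem_nhds hT] with t ht
    exact k1 a t h.1.le ht.le
  · rw [ENNReal.tsum_eq_iSup_sum]
    refine iSup_le fun A => ?_
    have h1 := k2 T hT (A.map (Function.Embedding.subtype _)) fun a h => by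
      obtain ⟨b, -, rfl⟩ := Finset.mem_map.1 h
      exact b.2.1.le
    rw [Finset.sum_map] at h1
    refine le_of_eq_of_le (Finset.sum_congr rfl fun a _ => ?_) h1
    rw [limsup_congr (e a a.2), liminf_congr (e a a.2)]
    rfl

end Pool.Agent.Results.MP_5aed36_gt.SummableDrops
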